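import Pool.Agent.Q75.IS.Stm

/-!
Project IS (helper75): jobs ERA, ES, VAR, DEL (helper299)
-/

set_option autoImplicit false

open Finset

namespace Pool.Agent.Q299.IS

open Pool.Agent.Q75.IS

theorem t_ERA : S_ERA := by
  intro b w
  induction w generalizing b with
  | nil => exact ⟨fun k hk => absurd hk (Nat.not_lt_zero k), by simp [lis]⟩
  | cons x v ih =>
    rw [List.length_cons]
    by_cases hx : b ≤ x
    · refine ⟨fun k hk => ?_, ?_⟩
      · rw [lis_cons_ge hx]
        rcases k with _ | k
        · rw [List.eraseIdx_cons_zero]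
          have := lis_anti (b := b) (c := x + 1) (by omega) v
          omega
        · rw [List.eraseIdx_cons_succ, lis_cons_ge hx]
          have h1 := (ih b).1 k (by omega)
          have h2 := (ih (x + 1)).1 k (by omega)
          omega
      · rw [sum_range_succ']
        simp only [List.eraseIdx_cons_zero, List.eraseIdx_cons_succ, lis_cons_ge hx]
        have h0 := lis_anti (b := b) (c := x + 1) (by omega) v
        rcases le_total (1 + lis (x + 1) v) (lis b v) with h | h
        · rw [max_eq_left h]
          have h1 := (ih b).2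
          have h2 : ∑ k ∈ range v.length, ((lis b v : ℝ) -
              (max (lis b (v.eraseIdx k)) (1 + lis (x + 1) (v.eraseIdx k)) : ℕ)) ≤
              ∑ k ∈ range v.length, ((lis b v : ℝ) - lis b (v.eraseIdx k)) := by
            refine sum_le_sum fun k _ => ?_
            have : (lis b (v.eraseIdx k) : ℝ) ≤
              (max (lis b (v.eraseIdx k)) (1 + lis (x + 1) (v.eraseIdx k)) : ℕ) := by
              exact_mod_cast le_max_left _ _
            linarith
          linarith
        · rw [max_eq_right h]
          have h1 := (ih (x + 1)).2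
          have h2 : ∑ k ∈ range v.length, (((1 + lis (x + 1) v : ℕ) : ℝ) -
              (max (lis b (v.eraseIdx k)) (1 + lis (x + 1) (v.eraseIdx k)) : ℕ)) ≤
              ∑ k ∈ range v.length, ((lis (x + 1) v : ℝ) - lis (x + 1) (v.eraseIdx k)) := by
            refine sum_le_sum fun k _ => ?_
            have : ((1 + lis (x + 1) (v.eraseIdx k) : ℕ) : ℝ) ≤
              (max (lis b (v.eraseIdx k)) (1 + lis (x + 1) (v.eraseIdx k)) : ℕ) := by
              exact_mod_cast le_max_right _ _
            push_cast at this ⊢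
            linarith
          have h3 : (lis (x + 1) v : ℝ) ≤ lis b v := by exact_mod_cast h0
          push_cast at h2 ⊢
          linarith
    · have hx' : x < b := Nat.lt_of_not_le hx
      refine ⟨fun k hk => ?_, ?_⟩
      · rw [lis_cons_lt hx']
        rcases k with _ | k
        · rw [List.eraseIdx_cons_zero]
          omega
        · rw [List.eraseIdx_cons_succ, lis_cons_lt hx']
          exact (ih b).1 k (by omega)
      · rw [sum_range_succ']
        simp only [List.eraseIdx_cons_zero, List.eraseIdx_cons_succ, lis_cons_lt hx']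
        have := (ih b).2
        linarith

variable {P : ℕ → ℝ} {M : ℕ}

theorem Ex_var (hP : Law P M) (n : ℕ) (g : List ℕ → ℝ) (c : ℝ) :
    Ex P M n (fun w => (g w - c) ^ 2) =
      Ex P M n (fun w => (g w - Ex P M n g) ^ 2) + (Ex P M n g - c) ^ 2 := by
  set m := Ex P M n g with hm
  have h1 : (fun w : List ℕ => (g w - c) ^ 2) =
      fun w => (g w - m) ^ 2 + ((2 * (m - c)) * g w + ((m - c) ^ 2 - 2 * (m - c) * m)) := by
    funext w
    ring
  rw [h1, Ex_add, Ex_add, Ex_mul, Ex_const hP, ← hm]
  ring

theorem t_ES : S_ES := by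
  intro P M hP n
  induction n with
  | zero =>
    intro g h
    simp [Ex_zero]
  | succ n ih =>
    intro g h
    set c : ℕ → ℝ := fun e => Ex P M n (fun w => g (e :: w)) with hc
    set C := Ex P M (n + 1) g with hC
    have hCc : C = ∑ e ∈ range M, P e * c e := rfl
    set d := Ex P M n (h 0) with hd
    rw [Ex_succ, sum_range_succ']
    have h1 : ∑ e ∈ range M, P e * Ex P M n (fun w => (g (e :: w) - C) ^ 2) =
        ∑ e ∈ range M, P e * Ex P M n (fun w => (g (e :: w) - c e) ^ 2) +
          ∑ e ∈ range M, P e * (c e - C) ^ 2 := by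
      rw [← sum_add_distrib]
      refine sum_congr rfl fun e _ => ?_
      rw [Ex_var hP n (fun w => g (e :: w)) C, mul_add]
    have h2 : ∑ e ∈ range M, P e * Ex P M n (fun w => (g (e :: w) - c e) ^ 2) ≤
        ∑ k ∈ range n, Ex P M (n + 1) (fun w => (g w - h (k + 1) (w.eraseIdx (k + 1))) ^ 2) := by
      simp only [Ex_succ, List.eraseIdx_cons_succ]
      rw [sum_comm]
      refine sum_le_sum fun e _ => ?_
      rw [← mul_sum]
      exact mul_le_mul_of_nonneg_left (ih (fun w => g (e :: w)) (fun k v => h (k + 1) (e :: v)))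
        (hP.nonneg e)
    have h3 : ∑ e ∈ range M, P e * (c e - C) ^ 2 ≤
        Ex P M (n + 1) (fun w => (g w - h 0 (w.eraseIdx 0)) ^ 2) := by
      simp only [Ex_succ, List.eraseIdx_cons_zero]
      have h4 : ∑ e ∈ range M, P e * (c e - C) ^ 2 ≤ ∑ e ∈ range M, P e * (c e - d) ^ 2 := by
        have h5 : ∑ e ∈ range M, P e * (c e - d) ^ 2 =
            ∑ e ∈ range M, P e * (c e - C) ^ 2 + (C - d) ^ 2 := by
          have h6 : ∑ e ∈ range M, P e * (c e - d) ^ 2 =
              ∑ e ∈ range M, (P e * (c e - C) ^ 2 + (2 * (C - d)) * (P e * c e) +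
                ((C - d) ^ 2 - 2 * (C - d) * C) * P e) :=
            sum_congr rfl fun e _ => by ring
          rw [h6, sum_add_distrib, sum_add_distrib, ← mul_sum, ← mul_sum, hP.sum, ← hCc]
          ring
        rw [h5]
        nlinarith [sq_nonneg (C - d)]
      refine h4.trans (sum_le_sum fun e _ => mul_le_mul_of_nonneg_left ?_ (hP.nonneg e))
      have h7 : c e - d = Ex P M n (fun w => g (e :: w) - h 0 w) := by
        rw [Ex_sub]
      rw [h7]
      exact Ex_sq_le hP n _
    rw [h1]
    exact add_le_add h2 h3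

theorem t_VAR (h1 : S_ERA) (h2 : S_ES) : S_VAR := by
  intro P M hP b n
  have h3 := h2 P M hP n (fun w => (lis b w : ℝ)) (fun _ v => (lis b v : ℝ))
  refine h3.trans ?_
  rw [← Ex_sum]
  refine Ex_mono hP.nonneg n fun w hw _ => ?_
  obtain ⟨h4, h5⟩ := h1 b w
  rw [hw] at h4 h5
  refine le_trans (sum_le_sum fun k hk => ?_) h5
  have h6 := h4 k (mem_range.1 hk)
  have h7 := lis_sublist (List.eraseIdx_sublist (l := w) (k := k)) b
  have h8 : lis b w = lis b (w.eraseIdx k) ∨ lis b w = lis b (w.eraseIdx k) + 1 := by omega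
  rcases h8 with h8 | h8
  · rw [h8]
    simp
  · rw [h8]
    push_cast
    ring_nf
    exact le_rfl

theorem Ex_erase (hP : Law P M) (n : ℕ) : ∀ (k : ℕ), k ≤ n → ∀ g : List ℕ → ℝ,
    Ex P M (n + 1) (fun w => g (w.eraseIdx k)) = Ex P M n g := by
  induction n with
  | zero =>
    intro k hk g
    obtain rfl : k = 0 := by omega
    simp only [Ex_succ, List.eraseIdx_cons_zero]
    rw [← sum_mul, hP.sum, one_mul]
  | succ n ih =>
    intro k hk g
    rcases k with _ | k
    · rw [Ex_succ]
      simp only [List.eraseIdx_cons_zero]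
      rw [← sum_mul, hP.sum, one_mul]
    · rw [Ex_succ, Ex_succ n g]
      simp only [List.eraseIdx_cons_succ]
      refine sum_congr rfl fun e _ => ?_
      rw [ih k (by omega) (fun w => g (e :: w))]

theorem t_DEL (h1 : S_ERA) : S_DEL := by
  intro P M hP b
  have mono : ∀ n, ell P M b n ≤ ell P M b (n + 1) := by
    intro n
    unfold ell
    rw [Ex_succ]
    have h2 : Ex P M n (fun w => (lis b w : ℝ)) =
        ∑ e ∈ range M, P e * Ex P M n (fun w => (lis b w : ℝ)) := by
      rw [← sum_mul, hP.sum, one_mul]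
    rw [h2]
    refine sum_le_sum fun e _ => mul_le_mul_of_nonneg_left ?_ (hP.nonneg e)
    exact Ex_mono hP.nonneg n fun w _ _ => by exact_mod_cast lis_le_cons b e w
  have step : ∀ n : ℕ, (n : ℝ) * ell P M b (n + 1) ≤ (n + 1) * ell P M b n := by
    intro n
    have h2 : Ex P M (n + 1) (fun w => ∑ k ∈ range (n + 1), ((lis b w : ℝ) - lis b (w.eraseIdx k)))
        ≤ ell P M b (n + 1) := by
      refine Ex_mono hP.nonneg (n + 1) fun w hw _ => ?_
      have := (h1 b w).2
      rwa [hw] at this
    rw [Ex_sum] at h2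
    have h3 : ∀ k ∈ range (n + 1), Ex P M (n + 1) (fun w => (lis b w : ℝ) - lis b (w.eraseIdx k)) =
        ell P M b (n + 1) - ell P M b n := by
      intro k hk
      rw [Ex_sub, Ex_erase hP n k (by have := mem_range.1 hk; omega) (fun w => (lis b w : ℝ))]
      rfl
    rw [sum_congr rfl h3, sum_const, card_range, nsmul_eq_mul] at h2
    push_cast at h2
    linarith
  intro n m hmn
  refine ⟨?_, monotone_nat_of_le_succ mono hmn⟩
  induction n, hmn using Nat.le_induction with
  | base => exact le_rfl
  | succ n hmn ih =>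
    rcases Nat.eq_zero_or_pos n with h0 | h0
    · obtain rfl : m = 0 := by omega
      rw [Nat.cast_zero, zero_mul]
      exact mul_nonneg (Nat.cast_nonneg _) (ell_nonneg hP.nonneg _ _)
    · have h4 : (0 : ℝ) < n := by exact_mod_cast h0
      have h5 := step n
      have h6 : (n : ℝ) * (m * ell P M b (n + 1)) ≤ n * ((n + 1 : ℕ) * ell P M b m) := by
        have h7 : (m : ℝ) * (n * ell P M b (n + 1)) ≤ m * ((n + 1) * ell P M b n) :=
          mul_le_mul_of_nonneg_left h5 (Nat.cast_nonneg _)
        have h8 : ((n : ℝ) + 1) * (m * ell P M b n) ≤ (n + 1) * (n * ell P M b m) :=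
          mul_le_mul_of_nonneg_left ih (by positivity)
        push_cast
        linarith
      exact le_of_mul_le_mul_left h6 h4

end Pool.Agent.Q299.IS
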